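import Pool.Agent.Q62.SP.Stm

/-! Project SP, job 22. -/

set_option autoImplicit false

open MeasureTheory Set Filter Topology
open scoped ContDiff
open H459R3.NS (V pd Per cube)

namespace Pool.Agent.Q62.SP

theorem j22_phi {y : ℝ} (hy : y ≤ -2) : phi y = 0 := by
  unfold phi
  rw [Real.smoothTransition.zero_of_nonpos (x := 2 + y) (by linarith), mul_zero]

theorem j22_psi : psi 0 = 0 := by
  unfold psi
  rw [j22_phi (by norm_num), j22_phi (by norm_num), sub_zero]

theorem j22_PP : PP 0 = 0 := by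
  unfold PP
  exact intervalIntegral.integral_same

theorem t_FIN : S_FIN := by
  intro N C hN hE x
  have key : ∀ c : ℝ, c ≠ 0 → ∃ m : ℕ, ∀ n, m ≤ n → ¬ |c| ≤ 66 / 2 ^ n := by
    intro c hc
    have hc' : 0 < |c| := abs_pos.2 hc
    obtain ⟨m, hm⟩ := pow_unbounded_of_one_lt (66 / |c|) (one_lt_two)
    refine ⟨m, fun n hn h => ?_⟩
    have h2 : (2 : ℝ) ^ m ≤ 2 ^ n := pow_le_pow_right₀ (by norm_num) hn
    have h3 : (0 : ℝ) < 2 ^ n := by positivity
    rw [div_lt_iff₀ hc'] at hm
    rw [le_div_iff₀ h3] at h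
    nlinarith
  have key2 : ∀ n, x ∉ SS N n → ee N n x = 0 ∧ dd N n x = 0 := by
    intro n hn
    have h := mt (hE.supp n x) hn
    push Not at h
    exact h
  by_cases h0 : xi N (x 0) = 0
  · by_cases h1 : xi N (x 1) = 0
    · refine ⟨0, fun n _ => ?_⟩
      constructor
      · unfold ee th
        rw [h1, mul_zero, j22_psi, mul_zero]
        funext i
        fin_cases i <;> rfl
      · unfold dd VA VB
        rw [h0, h1, mul_zero, zero_div, j22_PP]
        funext i
        fin_cases i <;> simp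
    · obtain ⟨m, hm⟩ := key _ h1
      exact ⟨m, fun n hn => key2 n fun h => hm n hn h.2⟩
  · obtain ⟨m, hm⟩ := key _ h0
    exact ⟨m, fun n hn => key2 n fun h => hm n hn h.1⟩

end Pool.Agent.Q62.SP
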