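import Pool.Agent.Q62.SP.Stm

/-! Project SP, job 2. -/

set_option autoImplicit false

open MeasureTheory Set Filter Topology
open scoped ContDiff
open H459R3.NS (V pd Per cube)

namespace Pool.Agent.Q62.SP

theorem j02_int (hp1 : S_PHI) (c z : ℝ) :
    Integrable (fun u => (1 - phi (2 * (z * (u + c)))) * phi (20 * u)) := by
  obtain ⟨⟨hphi, -, -, hz, -, -⟩, -, -, -⟩ := hp1
  have hc := hphi.continuous
  refine Continuous.integrable_of_hasCompactSupport (by fun_prop) ?_
  refine HasCompactSupport.intro (isCompact_Icc (a := (-1 : ℝ)) (b := 1)) fun x hx => ?_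
  have h1 : phi (20 * x) = 0 := by
    apply hz
    rw [mem_Icc, not_and_or] at hx
    rcases hx with h | h
    · push Not at h
      rw [abs_of_neg (by linarith)]
      linarith
    · push Not at h
      rw [abs_of_pos (by linarith)]
      linarith
  rw [h1, mul_zero]

theorem j02_shift (c z : ℝ) :
    ∫ y, (1 - phi (2 * (z * y))) * phi (20 * (y - c)) =
      ∫ u, (1 - phi (2 * (z * (u + c)))) * phi (20 * u) := by
  have h := integral_sub_right_eq_self
    (fun u => (1 - phi (2 * (z * (u + c)))) * phi (20 * u)) (μ := volume) c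
  rw [← h]
  simp only [sub_add_cancel]

theorem j02_gg (hp1 : S_PHI) (z : ℝ) : gg z =
    (∫ u, (1 - phi (2 * (z * (u + 51 / 10)))) * phi (20 * u)) -
      ∫ u, (1 - phi (2 * (z * (u + 11 / 10)))) * phi (20 * u) := by
  have h1 : ∀ c : ℝ, Integrable (fun y => (1 - phi (2 * (z * y))) * phi (20 * (y - c))) := by
    intro c
    have h := (j02_int hp1 c z).comp_sub_right c
    simpa only [sub_add_cancel] using h
  rw [← j02_shift, ← j02_shift, ← integral_sub (h1 _) (h1 _)]
  unfold gg psi
  refine integral_congr_ae (ae_of_all _ fun y => ?_)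
  change (1 - phi (2 * (z * y))) * (phi (20 * (y - 51 / 10)) - phi (20 * (y - 11 / 10))) = _
  ring

theorem j02_supp (hp1 : S_PHI) {u : ℝ} (h : phi (20 * u) ≠ 0) : |u| < 1 / 10 := by
  obtain ⟨⟨-, -, -, hz, -, -⟩, -, -, -⟩ := hp1
  by_contra hu
  push Not at hu
  apply h
  apply hz
  rw [abs_mul, abs_of_pos (by norm_num : (0 : ℝ) < 20)]
  linarith

theorem j02_smooth (hp1 : S_PHI) : ContDiff ℝ ∞ gg := by
  obtain ⟨⟨hphi, -, -, -, -, -⟩, -, -, hpsi, -, hsupp, -, -⟩ := hp1
  have h := contDiffOn_convolution_right_with_param_comp (𝕜 := ℝ) (n := ⊤) (μ := volume)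
    (ContinuousLinearMap.mul ℝ ℝ) (s := (univ : Set ℝ)) (v := fun _ : ℝ => (0 : ℝ)) contDiffOn_const
    (f := fun _ : ℝ => (1 : ℝ))
    (g := fun z x : ℝ => (1 - phi (2 * (z * (-x)))) * psi (-x)) (k := Icc (-6 : ℝ) 0)
    isOpen_univ isCompact_Icc
    (by
      intro z x _ hx
      have : psi (-x) = 0 := by
        by_contra hne
        obtain ⟨h1, h2⟩ := hsupp _ hne
        exact hx ⟨by linarith, by linarith⟩
      rw [this, mul_zero])
    (continuous_const.locallyIntegrable)
    (by
      apply ContDiff.contDiffOn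
      change ContDiff ℝ ∞ fun p : ℝ × ℝ => (1 - phi (2 * (p.1 * (-p.2)))) * psi (-p.2)
      have h1 : ContDiff ℝ ∞ fun p : ℝ × ℝ => phi (2 * (p.1 * (-p.2))) :=
        hphi.comp (by fun_prop)
      have h2 : ContDiff ℝ ∞ fun p : ℝ × ℝ => psi (-p.2) := hpsi.comp (by fun_prop)
      exact (contDiff_const.sub h1).mul h2)
  rw [contDiffOn_univ] at h
  convert h using 1
  funext z
  unfold gg
  rw [MeasureTheory.convolution_def]
  refine integral_congr_ae (ae_of_all _ fun y => ?_)
  simp

theorem t_GGP (hp1 : S_PHI) : S_GGP := by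
  have hI := j02_int hp1
  have hG := j02_gg hp1
  have hS := fun u => j02_supp hp1 (u := u)
  have hsm := j02_smooth hp1
  obtain ⟨⟨hphi, h01, hone, hz, heven, hanti⟩, -, -, hpsi, -, hsupp, -, -⟩ := hp1
  refine ⟨hsm, ?_, ?_, ?_, ?_⟩
  · intro z hz0
    rw [hG, sub_nonneg]
    refine integral_mono (hI _ _) (hI _ _) fun u => ?_
    change (1 - phi (2 * (z * (u + 11 / 10)))) * phi (20 * u) ≤
      (1 - phi (2 * (z * (u + 51 / 10)))) * phi (20 * u)
    by_cases hu : phi (20 * u) = 0
    · rw [hu, mul_zero, mul_zero]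
    · have h1 := abs_lt.1 (hS u hu)
      refine mul_le_mul_of_nonneg_right ?_ (h01 _).1
      have h2 : phi (2 * (z * (u + 51 / 10))) ≤ phi (2 * (z * (u + 11 / 10))) := by
        apply hanti
        · have : 0 ≤ u + 11 / 10 := by linarith
          positivity
        · nlinarith
      linarith
  · intro z hz0 hz1
    unfold gg
    have h1 : ∀ y, (1 - phi (2 * (z * y))) * psi y = 0 := by
      intro y
      by_cases hy : psi y = 0
      · rw [hy, mul_zero]
      · obtain ⟨h1, h2⟩ := hsupp y hy
        rw [hone, sub_self, zero_mul]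
        rw [abs_of_nonneg (by positivity)]
        nlinarith
    simp only [h1, integral_zero]
  · intro z hz1
    rw [hG]
    have h1 : ∀ c : ℝ, 11 / 10 ≤ c → ∀ u, (1 - phi (2 * (z * (u + c)))) * phi (20 * u) =
        phi (20 * u) := by
      intro c hc u
      by_cases hu : phi (20 * u) = 0
      · rw [hu, mul_zero]
      · have h1 := abs_lt.1 (hS u hu)
        rw [hz, sub_zero, one_mul]
        have h2 : 1 ≤ z * (u + c) := by nlinarith
        exact le_trans (by linarith) (le_abs_self _)
    simp only [h1 _ (by norm_num : (11 / 10 : ℝ) ≤ 51 / 10), h1 _ le_rfl, sub_self]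
  · intro z hz1 hz2
    rw [hG]
    have h1 : ∀ u, (1 - phi (2 * (z * (u + 51 / 10)))) * phi (20 * u) = phi (20 * u) := by
      intro u
      by_cases hu : phi (20 * u) = 0
      · rw [hu, mul_zero]
      · have h1 := abs_lt.1 (hS u hu)
        rw [hz, sub_zero, one_mul]
        have h2 : 1 ≤ z * (u + 51 / 10) := by nlinarith
        exact le_trans (by linarith) (le_abs_self _)
    have h2 : ∀ u, (1 - phi (2 * (z * (u + 11 / 10)))) * phi (20 * u) = 0 := by
      intro u
      by_cases hu : phi (20 * u) = 0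
      · rw [hu, mul_zero]
      · have h1 := abs_lt.1 (hS u hu)
        rw [hone, sub_self, zero_mul]
        have h3 : 0 ≤ u + 11 / 10 := by linarith
        rw [abs_of_nonneg (by positivity)]
        nlinarith
    simp only [h1, h2, integral_zero, sub_zero]
    rfl

end Pool.Agent.Q62.SP
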