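import Pool.Agent.Q62.SP.Stm

/-! Project SP, job 16. -/

set_option autoImplicit false

open MeasureTheory Set Filter Topology
open scoped ContDiff
open H459R3.NS (V pd Per cube)

namespace Pool.Agent.Q62.SP

theorem j16_fubini (A : ℝ → ℝ) (K : ℝ → ℝ → ℝ) :
    ∫ x : V, A (x 2) * K (x 0) (x 1) = (∫ y, A y) * ∫ z : ℝ × ℝ, K z.1 z.2 := by
  have e1 := volume_preserving_piFinSuccAbove (fun _ : Fin 3 => ℝ) 2
  have h1 := e1.integral_comp' (fun z : ℝ × (Fin 2 → ℝ) => A z.1 * K (z.2 0) (z.2 1))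
  have h2 : ∫ x : V, A (x 2) * K (x 0) (x 1) =
      ∫ z : ℝ × (Fin 2 → ℝ), A z.1 * K (z.2 0) (z.2 1) := by
    rw [← h1]
    rfl
  rw [h2]
  have h3 := integral_prod_mul (μ := (volume : Measure ℝ)) (ν := (volume : Measure (Fin 2 → ℝ))) A
    (fun w : Fin 2 → ℝ => K (w 0) (w 1))
  rw [← Measure.volume_eq_prod] at h3
  rw [h3]
  congr 1
  have e2 := volume_preserving_finTwoArrow ℝ
  have h4 := e2.integral_comp' (fun z : ℝ × ℝ => K z.1 z.2)
  rw [← h4]
  rfl

theorem j16_scale {N : ℝ} (hN : 0 < N) (f : ℝ → ℝ) :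
    ∫ t, f (N * (t - 1 / 2)) = N⁻¹ * ∫ b, f b := by
  have h1 := integral_sub_right_eq_self (fun t => f (N * t)) (μ := volume) (1 / 2)
  rw [h1, Measure.integral_comp_mul_left, abs_of_pos (by positivity), smul_eq_mul]

theorem t_INT : S_INT := by
  intro N hN k hk hk0 g hg
  have hN0 : 0 < N := by linarith
  have hcube : (cube : Set V) = {x | ∀ i, x i ∈ Icc (0 : ℝ) 1} := by
    ext x
    unfold cube
    simp only [mem_Icc, Pi.le_def, Pi.zero_apply, Pi.one_apply, mem_ofPred_eq]
    constructor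
    · intro h i
      exact ⟨h.1 i, h.2 i⟩
    · intro h
      exact ⟨fun i => (h i).1, fun i => (h i).2⟩
  have hm : MeasurableSet (cube : Set V) := measurableSet_Icc
  have hxi : ∀ s ∈ Icc (0 : ℝ) 1, xi N s = N * (s - 1 / 2) ∨ (66 ≤ |xi N s| ∧ 66 ≤ |N * (s - 1 / 2)|) := by
    intro s hs
    rcases eq_or_lt_of_le hs.2 with h | h
    · right
      unfold xi
      rw [h, Int.fract_one]
      constructor
      · rw [abs_of_neg (by nlinarith)]
        nlinarith
      · rw [abs_of_pos (by nlinarith)]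
        nlinarith
    · left
      unfold xi
      rw [Int.fract_eq_self.2 ⟨hs.1, h⟩]
  have hout : ∀ s, s ∉ Icc (0 : ℝ) 1 → 66 ≤ |N * (s - 1 / 2)| := by
    intro s hs
    rw [mem_Icc, not_and_or] at hs
    rcases hs with h | h
    · push Not at h
      rw [abs_of_neg (by nlinarith)]
      nlinarith
    · push Not at h
      rw [abs_of_pos (by nlinarith)]
      nlinarith
  have h1 : ∫ x in cube, g (x 2) * k (xi N (x 0)) (xi N (x 1)) =
      ∫ x : V, (Icc (0 : ℝ) 1).indicator g (x 2) * k (N * (x 0 - 1 / 2)) (N * (x 1 - 1 / 2)) := by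
    rw [← integral_indicator hm]
    refine integral_congr_ae (ae_of_all _ fun x => ?_)
    change (cube : Set V).indicator _ x =
      (Icc (0 : ℝ) 1).indicator g (x 2) * k (N * (x 0 - 1 / 2)) (N * (x 1 - 1 / 2))
    by_cases hx : x ∈ (cube : Set V)
    · rw [indicator_of_mem hx]
      rw [hcube] at hx
      rw [indicator_of_mem (hx 2)]
      congr 1
      rcases hxi _ (hx 0) with h | h
      · rcases hxi _ (hx 1) with h' | h'
        · rw [h, h']
        · rw [hk0 _ _ (Or.inr h'.1), hk0 _ _ (Or.inr h'.2)]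
      · rw [hk0 _ _ (Or.inl h.1), hk0 _ _ (Or.inl h.2)]
    · rw [indicator_of_notMem hx]
      by_cases h2 : x 2 ∈ Icc (0 : ℝ) 1
      · by_cases h0 : x 0 ∈ Icc (0 : ℝ) 1
        · by_cases h1 : x 1 ∈ Icc (0 : ℝ) 1
          · exfalso
            apply hx
            rw [hcube]
            intro i
            fin_cases i
            · exact h0
            · exact h1
            · exact h2
          · rw [hk0 _ _ (Or.inr (hout _ h1)), mul_zero]
        · rw [hk0 _ _ (Or.inl (hout _ h0)), mul_zero]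
      · rw [indicator_of_notMem h2, zero_mul]
  rw [h1, j16_fubini ((Icc (0 : ℝ) 1).indicator g) fun a b => k (N * (a - 1 / 2)) (N * (b - 1 / 2))]
  have h2 : ∫ y, (Icc (0 : ℝ) 1).indicator g y = ∫ y in (0 : ℝ)..1, g y := by
    rw [integral_indicator measurableSet_Icc, integral_Icc_eq_integral_Ioc,
      intervalIntegral.integral_of_le zero_le_one]
  rw [h2]
  have hcont : Continuous fun z : ℝ × ℝ => k (N * (z.1 - 1 / 2)) (N * (z.2 - 1 / 2)) :=
    hk.comp (f := fun z : ℝ × ℝ => (N * (z.1 - 1 / 2), N * (z.2 - 1 / 2))) (by fun_prop)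
  have hint : Integrable (fun z : ℝ × ℝ => k (N * (z.1 - 1 / 2)) (N * (z.2 - 1 / 2)))
      ((volume : Measure ℝ).prod volume) := by
    refine hcont.integrable_of_hasCompactSupport ?_
    refine HasCompactSupport.intro
      ((isCompact_Icc (a := (0 : ℝ)) (b := 1)).prod (isCompact_Icc (a := (0 : ℝ)) (b := 1)))
      fun z hz => ?_
    rw [mem_prod, not_and_or] at hz
    rcases hz with h | h
    · exact hk0 _ _ (Or.inl (hout _ h))
    · exact hk0 _ _ (Or.inr (hout _ h))
  have h3 : ∫ z : ℝ × ℝ, k (N * (z.1 - 1 / 2)) (N * (z.2 - 1 / 2)) =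
      N⁻¹ * (N⁻¹ * ∫ a, ∫ b, k a b) := by
    rw [Measure.volume_eq_prod, integral_prod _ hint]
    have h4 : ∀ a : ℝ, ∫ b, k (N * (a - 1 / 2)) (N * (b - 1 / 2)) =
        N⁻¹ * ∫ b, k (N * (a - 1 / 2)) b := fun a => j16_scale hN0 _
    simp only [h4]
    rw [integral_const_mul, j16_scale hN0 fun a => ∫ b, k a b]
  rw [h3]
  field_simp

end Pool.Agent.Q62.SP
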