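import Pool.Agent.Q62.SP.Stm

/-! Project SP, job 14. -/

set_option autoImplicit false

open MeasureTheory Set Filter Topology
open scoped ContDiff

namespace Pool.Agent.Q62.SP

theorem j14_phi (hp1 : S_PHI) (c : ℝ) :
    Integrable (fun y => phi (20 * (y - c))) ∧ ∫ y, phi (20 * (y - c)) = cb := by
  obtain ⟨⟨hphi, -, -, hz, -, -⟩, -, -, -⟩ := hp1
  have hi : Integrable phi := by
    refine hphi.continuous.integrable_of_hasCompactSupport ?_
    refine HasCompactSupport.intro (isCompact_Icc (a := (-2 : ℝ)) (b := 2)) fun x hx => ?_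
    apply hz
    rw [mem_Icc, not_and_or] at hx
    rcases hx with h | h
    · push Not at h
      rw [abs_of_neg (by linarith)]
      linarith
    · push Not at h
      exact h.le.trans (le_abs_self x)
  have h2 : Integrable (fun y => phi (20 * y)) := hi.comp_mul_left' (by norm_num)
  constructor
  · exact h2.comp_sub_right c
  · exact integral_sub_right_eq_self (fun y => phi (20 * y)) c

theorem j14_psi (hp1 : S_PHI) : ∫ y, psi y = 0 := by
  have h1 := j14_phi hp1 (51 / 10)
  have h2 := j14_phi hp1 (11 / 10)
  unfold psi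
  rw [integral_sub h1.1 h2.1, h1.2, h2.2, sub_self]

theorem t_MZR (hp1 : S_PHI) : S_MZR := by
  intro n
  have hP : ∀ y, PP (-y) = -PP y := hp1.2.2.1.2.2.2.2.1
  have hPi : ∀ c : ℝ, ∫ y, PP (c * y) = 0 := by
    intro c
    have h1 : ∫ y, PP (c * (-y)) = ∫ y, PP (c * y) := integral_neg_eq_self (fun y => PP (c * y)) volume
    have h2 : ∫ y, PP (c * (-y)) = -∫ y, PP (c * y) := by
      rw [← integral_neg]
      refine integral_congr_ae (ae_of_all _ fun y => ?_)
      change PP (c * -y) = -PP (c * y)
      rw [mul_neg, hP]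
    linarith
  refine ⟨?_, ?_, ?_⟩
  · have h1 : ∀ a, ∫ b, th n a b = 0 := by
      intro a
      unfold th
      rw [integral_const_mul]
      have h2 := Measure.integral_comp_mul_left psi ((2 : ℝ) ^ n)
      rw [h2, j14_psi hp1, smul_zero, mul_zero]
    simp only [h1, integral_zero]
  · have h1 : ∀ a, ∫ b, VA n a b = 11 / 2 ^ n * (∫ b, qq (2 ^ n * b / 11)) * PP (2 ^ n / 11 * a) := by
      intro a
      unfold VA
      rw [integral_const_mul]
      have e : (2 : ℝ) ^ n * a / 11 = 2 ^ n / 11 * a := by ring
      rw [e]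
      ring
    simp only [h1]
    rw [integral_const_mul, hPi, mul_zero]
  · have h1 : ∀ a, ∫ b, VB n a b = 0 := by
      intro a
      unfold VB
      rw [integral_neg, integral_const_mul]
      have e : (fun b : ℝ => PP (2 ^ n * b / 11)) = fun b => PP (2 ^ n / 11 * b) := by
        funext b
        congr 1
        ring
      rw [e, hPi, mul_zero, neg_zero]
    simp only [h1, integral_zero]

end Pool.Agent.Q62.SP
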