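import Pool.Agent.Q62.SP.Stm

/-! Project SP, job 13. -/

set_option autoImplicit false

open MeasureTheory Set Filter Topology
open scoped ContDiff
open H459R3.NS (V pd Per cube)

namespace Pool.Agent.Q62.SP

theorem t_PRE (hp1 : S_PHI) : S_PRE := by
  intro Z hZ n s hs
  obtain ⟨⟨-, -, -, hz, -, -⟩, -, -, -, -, hpsi, -, -⟩ := hp1
  have h2n : (0 : ℝ) < 2 ^ n := by positivity
  have key : ∀ a b, WW Z a b s * th n a b =
      phi (140 * (2 ^ n * a)) * ((1 - phi (2 * (za n s * (2 ^ n * b)))) * psi (2 ^ n * b)) := by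
    intro a b
    unfold th
    by_cases h1 : phi (140 * (2 ^ n * a)) = 0
    · rw [h1]; ring
    by_cases h2 : psi (2 ^ n * b) = 0
    · rw [h2]; ring
    have ha : |140 * (2 ^ n * a)| < 2 := by
      by_contra h
      push Not at h
      exact h1 (hz _ h)
    obtain ⟨hb1, hb2⟩ := hpsi _ h2
    have hb : 0 < b := by
      by_contra h
      push Not at h
      have : 2 ^ n * b ≤ 0 := mul_nonpos_of_nonneg_of_nonpos h2n.le h
      linarith
    have hab : |a| ≤ |b| / 70 := by
      rw [abs_of_pos hb, le_div_iff₀ (by norm_num)]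
      rw [abs_mul, abs_mul, abs_of_pos h2n, abs_of_pos (by norm_num : (0 : ℝ) < 140)] at ha
      have h3 : 2 ^ n * (|a| * 70) < 2 ^ n * b := by linarith
      exact (lt_of_mul_lt_mul_left h3 h2n.le).le
    have e : 2 * (za n s * (2 ^ n * b)) = 2 * (b * Real.exp s) / 5 := by
      unfold za
      field_simp
    rw [e]
    have hW : WW Z a b s = 1 - phi (2 * (b * Real.exp s) / 5) := by
      unfold WW
      rcases le_total (|b| * Real.exp s) 5 with h | h
      · rw [hZ.near a b s hs hab h]
      · have h3 := hZ.far a b s hs hab h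
        have h4 : phi (2 * Z a b s / 5) = 0 := by
          apply hz
          rw [abs_div, abs_mul, abs_of_pos (by norm_num : (0 : ℝ) < 2),
            abs_of_pos (by norm_num : (0 : ℝ) < 5), le_div_iff₀ (by norm_num)]
          linarith
        have h5 : phi (2 * (b * Real.exp s) / 5) = 0 := by
          apply hz
          rw [abs_of_pos hb] at h
          rw [abs_of_pos (by positivity), le_div_iff₀ (by norm_num)]
          linarith
        rw [h4, h5]
    rw [hW]
    ring
  have h1 : ∀ a, ∫ b, WW Z a b s * th n a b =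
      phi (140 * (2 ^ n * a)) * ((2 ^ n)⁻¹ * gg (za n s)) := by
    intro a
    simp only [key]
    rw [integral_const_mul]
    congr 1
    have h2 := Measure.integral_comp_mul_left
      (fun y => (1 - phi (2 * (za n s * y))) * psi y) ((2 : ℝ) ^ n)
    rw [h2, abs_of_pos (by positivity), smul_eq_mul]
    rfl
  simp only [h1]
  rw [integral_mul_const]
  have h3 := Measure.integral_comp_mul_left (fun y => phi (140 * y)) ((2 : ℝ) ^ n)
  rw [h3, abs_of_pos (by positivity), smul_eq_mul]
  have e : (4 : ℝ) ^ n = 2 ^ n * 2 ^ n := by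
    rw [← mul_pow]; norm_num
  rw [e]
  change (2 ^ n)⁻¹ * ca * ((2 ^ n)⁻¹ * gg (za n s)) = _
  field_simp

end Pool.Agent.Q62.SP
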